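import Mathlib
import Pool.Agent.MP_c4941a_URT.Defs
import Pool.Agent.MP_c4941a_URT.Upper

set_option autoImplicit false

/-!
# The undirected repetition threshold for all large alphabets

For every `k ≥ 22` the undirected repetition threshold is `(k - 1) / (k - 2)`.
-/

namespace Pool.Agent.Results.MP_c4941a_co.UndirectedThreshold

open Pool.Agent.URT

theorem result : ∀ k : ℕ, 22 ≤ k → RTu k = ((k : ℝ) - 1) / ((k : ℝ) - 2) :=
  fun _ hk => RTu_eq hk

end Pool.Agent.Results.MP_c4941a_co.UndirectedThreshold
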